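import Mathlib
import Pool.Agent.H817R5.EP.Stubs

set_option autoImplicit false

open Finset

namespace Pool.Agent.H577R5.EP

open Pool.Agent.H817R5.EP

lemma ind_nonneg (a : ℕ → ℕ) (T : Finset ℕ) (n : ℕ) : 0 ≤ ind a T n := by
  unfold ind; split_ifs <;> norm_num

lemma ind_prod (a : ℕ → ℕ) (T : Finset ℕ) (n : ℕ) :
    ind a T n = ∏ q ∈ T, (if n % q ^ 2 < a q then (1 : ℝ) else 0) := by
  classical
  unfold ind
  rw [Finset.prod_ite_zero]
  simp

lemma ind_mod (a : ℕ → ℕ) (T : Finset ℕ) (n : ℕ) :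
    ind a T (n % ∏ q ∈ T, q ^ 2) = ind a T n := by
  rw [ind_prod, ind_prod]
  refine Finset.prod_congr rfl fun q hq => ?_
  rw [Nat.mod_mod_of_dvd _ (Finset.dvd_prod_of_mem (fun q => q ^ 2) hq)]

lemma sum_ind_le (hcrt : St_CRT) (a : ℕ → ℕ) (P g : Finset ℕ) (z : ℕ) (hA : Adm a P z)
    (hg : g ⊆ P) :
    ∑ y ∈ range (∏ q ∈ g, q ^ 2), ind a g y ≤ ∏ q ∈ g, (a q : ℝ) := by
  have h1 := hcrt g (fun q y => if y % q ^ 2 < a q then (1 : ℝ) else 0)
    (fun q hq => (hA q (hg hq)).1) (fun q hq n => by simp [Nat.mod_mod])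
  have h2 : ∑ y ∈ range (∏ q ∈ g, q ^ 2), ind a g y
      = ∑ y ∈ range (∏ q ∈ g, q ^ 2), ∏ q ∈ g, (if y % q ^ 2 < a q then (1 : ℝ) else 0) :=
    Finset.sum_congr rfl fun y _ => ind_prod a g y
  rw [h2, h1]
  refine Finset.prod_le_prod (fun q _ => Finset.sum_nonneg fun y _ => by split_ifs <;> norm_num)
    fun q hq => ?_
  rw [← Finset.sum_filter]
  simp only [Finset.sum_const, nsmul_eq_mul, mul_one]
  have : ((range (q ^ 2)).filter (fun y => y % q ^ 2 < a q)).card ≤ a q := by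
    calc ((range (q ^ 2)).filter (fun y => y % q ^ 2 < a q)).card ≤ (range (a q)).card := by
          refine Finset.card_le_card fun y hy => ?_
          simp only [Finset.mem_filter, Finset.mem_range] at hy ⊢
          rw [Nat.mod_eq_of_lt hy.1] at hy
          exact hy.2
      _ = a q := by simp
  exact_mod_cast this

theorem tgl (hcrt : St_CRT) (hper : St_PER) (hnmax : St_NMAX) : St_TGL := by
  intro a P g z G H hA hg hG hGp
  have hqpos : ∀ q ∈ g, (0 : ℝ) < q := fun q hq => by exact_mod_cast (hA q (hg hq)).1.pos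
  set M : ℕ := ∏ q ∈ g, q ^ 2 with hM
  have hMpos : 0 < M := Finset.prod_pos fun q hq => pow_pos (hA q (hg hq)).1.pos 2
  have hMR : ((M : ℕ) : ℝ) = ∏ q ∈ g, (q : ℝ) ^ 2 := by rw [hM]; push_cast; rfl
  have hMRpos : (0 : ℝ) < M := by exact_mod_cast hMpos
  have hGpos : (0 : ℝ) < G := by exact_mod_cast hG
  set Nm : ℝ := 2 ^ g.card * (2 * (H : ℝ) / G + 2 * z + (G : ℝ) ^ 2) with hNm
  have hNm0 : 0 ≤ Nm := by positivity
  set N : ℕ → ℝ := fun y => ∑ r ∈ range H, ind a g (y + r) with hN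
  have hN0 : ∀ y, 0 ≤ N y := fun y => Finset.sum_nonneg fun r _ => ind_nonneg a g _
  have hNle : ∀ y, N y ≤ Nm := fun y => hnmax a P g z G H y hA hg hG hGp
  -- the sum of kap
  have hA1 : ∑ r ∈ range H, ∑ s ∈ range H, kap a g r s = (∑ y ∈ range M, N y ^ 2) / M := by
    have : ∀ r s, kap a g r s = (∑ y ∈ range M, ind a g (y + r) * ind a g (y + s)) / M := by
      intro r s; unfold kap; rw [← hMR]
    simp only [this]
    rw [Finset.sum_congr rfl fun r _ => (Finset.sum_div _ _ _).symm]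
    rw [← Finset.sum_div]
    congr 1
    rw [Finset.sum_congr rfl fun r _ => Finset.sum_comm]
    rw [Finset.sum_comm]
    refine Finset.sum_congr rfl fun y _ => ?_
    rw [hN, sq, Finset.sum_mul_sum]
  have hsumN : ∑ y ∈ range M, N y ≤ H * ∏ q ∈ g, (a q : ℝ) := by
    rw [hN]
    rw [Finset.sum_comm]
    have h1 : ∀ r ∈ range H, ∑ y ∈ range M, ind a g (y + r) ≤ ∏ q ∈ g, (a q : ℝ) := by
      intro r _
      rw [(hper M 0 0 (ind a g) hMpos (fun n => ind_mod a g n)).2.2 r]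
      exact sum_ind_le hcrt a P g z hA hg
    calc _ ≤ ∑ r ∈ range H, ∏ q ∈ g, (a q : ℝ) := Finset.sum_le_sum h1
      _ = _ := by simp
  have hden : den a g = (∏ q ∈ g, (a q : ℝ)) / M := by
    unfold den; rw [Finset.prod_div_distrib, hMR]
  have hA2 : ∑ r ∈ range H, ∑ s ∈ range H, kap a g r s ≤ Nm * (H * den a g) := by
    rw [hA1, hden, div_le_iff₀ hMRpos]
    calc ∑ y ∈ range M, N y ^ 2 ≤ ∑ y ∈ range M, Nm * N y := by
          refine Finset.sum_le_sum fun y _ => ?_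
          rw [sq]; exact mul_le_mul_of_nonneg_right (hNle y) (hN0 y)
      _ = Nm * ∑ y ∈ range M, N y := by rw [Finset.mul_sum]
      _ ≤ Nm * (H * ∏ q ∈ g, (a q : ℝ)) := mul_le_mul_of_nonneg_left hsumN hNm0
      _ = Nm * (H * ((∏ q ∈ g, (a q : ℝ)) / M)) * M := by field_simp
  have hA0 : 0 ≤ ∑ r ∈ range H, ∑ s ∈ range H, kap a g r s := by
    rw [hA1]; exact div_nonneg (Finset.sum_nonneg fun y _ => sq_nonneg _) hMRpos.le
  -- den bound
  have hden0 : 0 ≤ den a g := by rw [hden]; positivity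
  have hden2 : den a g ≤ ∏ q ∈ g, 2 / (q : ℝ) := by
    unfold den
    refine Finset.prod_le_prod (fun q _ => by positivity) fun q hq => ?_
    have h1 := hqpos q hq
    have h2 : (a q : ℝ) ≤ 2 * q := by exact_mod_cast (hA q (hg hq)).2.2.2
    rw [div_le_div_iff₀ (by positivity) h1]
    nlinarith
  have hW0 : 0 ≤ ∏ q ∈ g, 4 / (q : ℝ) := Finset.prod_nonneg fun q _ => by positivity
  have h4 : (2 : ℝ) ^ g.card * den a g ≤ ∏ q ∈ g, 4 / (q : ℝ) := by
    calc (2 : ℝ) ^ g.card * den a g ≤ 2 ^ g.card * ∏ q ∈ g, 2 / (q : ℝ) :=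
          mul_le_mul_of_nonneg_left hden2 (by positivity)
      _ = ∏ q ∈ g, 4 / (q : ℝ) := by
          rw [← Finset.prod_const, ← Finset.prod_mul_distrib]
          refine Finset.prod_congr rfl fun q _ => by ring
  have hB1 : den a g ^ 2 ≤ (∏ q ∈ g, 4 / (q : ℝ)) / G := by
    have hpp : (0 : ℝ) < ∏ q ∈ g, (q : ℝ) := Finset.prod_pos hqpos
    have hGle : (G : ℝ) ≤ ∏ q ∈ g, (q : ℝ) := by
      have : ((G : ℕ) : ℝ) < ((∏ q ∈ g, q : ℕ) : ℝ) := by exact_mod_cast hGp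
      push_cast at this
      exact this.le
    calc den a g ^ 2 ≤ (∏ q ∈ g, 2 / (q : ℝ)) ^ 2 := pow_le_pow_left₀ hden0 hden2 2
      _ = (∏ q ∈ g, 4 / (q : ℝ)) / ∏ q ∈ g, (q : ℝ) := by
          rw [← Finset.prod_pow, ← Finset.prod_div_distrib]
          refine Finset.prod_congr rfl fun q hq => ?_
          have := (hqpos q hq).ne'
          field_simp
          norm_num
      _ ≤ (∏ q ∈ g, 4 / (q : ℝ)) / G := by
          exact div_le_div_of_nonneg_left hW0 hGpos hGle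
  have hsplit : ∑ r ∈ range H, ∑ s ∈ range H, (kap a g r s - den a g ^ 2)
      = ∑ r ∈ range H, ∑ s ∈ range H, kap a g r s - H * (H * den a g ^ 2) := by
    simp [Finset.sum_sub_distrib]
  rw [hsplit]
  have hB0 : 0 ≤ H * (H * den a g ^ 2) := by positivity
  have hfin1 : ∑ r ∈ range H, ∑ s ∈ range H, kap a g r s ≤
      (∏ q ∈ g, 4 / (q : ℝ)) * (H * (2 * (H : ℝ) / G + 2 * z + (G : ℝ) ^ 2)) := by
    calc _ ≤ Nm * (H * den a g) := hA2
      _ = (2 ^ g.card * den a g) * (H * (2 * (H : ℝ) / G + 2 * z + (G : ℝ) ^ 2)) := by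
          rw [hNm]; ring
      _ ≤ _ := mul_le_mul_of_nonneg_right h4 (by positivity)
  have hfin2 : (H : ℝ) * (H * den a g ^ 2) ≤ (∏ q ∈ g, 4 / (q : ℝ)) * (H * (H / G)) := by
    calc (H : ℝ) * (H * den a g ^ 2) ≤ H * (H * ((∏ q ∈ g, 4 / (q : ℝ)) / G)) := by gcongr
      _ = _ := by ring
  have hsum : (∏ q ∈ g, 4 / (q : ℝ)) * (H * (3 * (H : ℝ) / G + 2 * z + (G : ℝ) ^ 2))
      = (∏ q ∈ g, 4 / (q : ℝ)) * (H * (2 * (H : ℝ) / G + 2 * z + (G : ℝ) ^ 2))
        + (∏ q ∈ g, 4 / (q : ℝ)) * (H * (H / G)) := by ring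
  rw [hsum, abs_le]
  constructor <;> linarith

end Pool.Agent.H577R5.EP
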